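import Pool.Agent.Helper99.RTB.Final

/-!
# One family: length `r N` for all `r` up to `c log log N`
-/

set_option autoImplicit false

namespace Pool.Agent.Helper99.RTB

open Pool.Agent.Helper19.NF Pool.Agent.Helper74.NW
open Pool.Agent.Helper99.NK (times card_mono)

lemma four_pow {i T r : ℕ} (h16 : 16 ≤ i) (hT : T ≤ i) (hr : r + 1 ≤ i) :
    2 ^ i + (16 * T + r + 1) * (i + 1) ≤ 4 ^ i := by
  obtain ⟨t, ht⟩ : ∃ t, t = i / 2 := ⟨_, rfl⟩
  have hti : 2 * t ≤ i := by omega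
  have hti' : i ≤ 2 * t + 1 := by omega
  have h1 : t + 1 ≤ 2 ^ t := Nat.lt_two_pow_self
  have h2 : (t + 1) ^ 2 ≤ 2 ^ i := by
    calc (t + 1) ^ 2 ≤ (2 ^ t) ^ 2 := Nat.pow_le_pow_left h1 2
      _ = 2 ^ (2 * t) := by rw [← pow_mul, mul_comm]
      _ ≤ 2 ^ i := Nat.pow_le_pow_right (by norm_num) hti
  have h3 : (4 : ℕ) ^ i = 2 ^ i * 2 ^ i := by
    rw [← mul_pow]
    norm_num
  have h4 : 137 ≤ 2 ^ i := by
    calc 137 ≤ 2 ^ 16 := by norm_num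
      _ ≤ 2 ^ i := Nat.pow_le_pow_right (by norm_num) h16
  have h5 : (16 * T + r + 1) * (i + 1) ≤ 136 * (t + 1) ^ 2 := by
    have h6 : 16 * T + r + 1 ≤ 17 * i := by omega
    have h7 : (16 * T + r + 1) * (i + 1) ≤ (17 * (2 * t + 1)) * (2 * t + 2) :=
      Nat.mul_le_mul (by omega) (by omega)
    refine h7.trans ?_
    nlinarith
  have h7 : 136 * (t + 1) ^ 2 ≤ 136 * 2 ^ i := Nat.mul_le_mul_left _ h2
  rw [h3]
  nlinarith

theorem family (δ : ℝ) (hδ : 0 < δ) : ∃ C : ℕ, ∀ (r : ℕ) (e : ℝ), 1 ≤ r → e = 1 / 2 ^ (C * r) →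
    ∀ n : ℕ, 2 ^ 2 ^ (C * r) ≤ n → ∃ N : ℕ, n ≤ N ∧ N ≤ n ^ 2 ∧
    ∃ f : (Fin N → Bool) → Bool,
      (∀ (S : ℕ) (P : NProg (Fin N) Bool Bool S), (S : ℝ) ≤ 2 ^ ((N : ℝ) ^ e) →
        (∀ I l z, P.Ends I l z → z = f I) →
        (Nat.card {I // ∃ l z, P.Ends I l z ∧ l.length ≤ r * N} : ℝ) ≤ (N : ℝ) ^ (-e) * 2 ^ N ∧
        (Nat.card {I // (∃ l z, P.Ends I l z) ∧
            ∀ l z, P.Ends I l z → (1 / 2 + δ) * N ≤ Nat.card {x // times l x ≤ r}} : ℝ) ≤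
          (N : ℝ) ^ (-e) * 2 ^ N) ∧
      (∀ y, (1 / 2 - (N : ℝ) ^ (-e)) * 2 ^ N ≤ Nat.card {I // f I = y}) ∧
      ∃ (Q Γ : Type) (_ : Finite Q) (_ : Finite Γ) (P : PProg (Fin N) Bool Bool Q Γ),
        Nat.card Q ≤ N ^ 3 ∧ Nat.card Γ ≤ N ∧
        ∀ I, P.Outputs I (f I) ∧ (Nat.card {x // P.Asks I x} : ℝ) ≤ (N : ℝ) ^ (1 - e) := by
  obtain ⟨c₀, hc₀, h⟩ := coreB δ hδ
  obtain ⟨C, hC⟩ : ∃ C, C = 4 * c₀ + 8 := ⟨_, rfl⟩
  refine ⟨C, fun r e hr he n hn => ?_⟩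
  obtain ⟨T, hT1, hT2, hcore⟩ := h r
  obtain ⟨A, hA⟩ : ∃ A, A = c₀ * (r + 1) := ⟨_, rfl⟩
  rw [← hA] at hT2 hcore
  have hAC : 2 * A + 8 ≤ C * r := by
    rw [hA, hC]
    nlinarith
  -- the scale
  have hex : ∃ i : ℕ, n ≤ (2 ^ i) ^ (16 * T) := by
    refine ⟨n, ?_⟩
    have h1 : n < 2 ^ n := Nat.lt_two_pow_self
    exact h1.le.trans (Nat.le_self_pow (by omega) _)
  classical
  obtain ⟨i, hi⟩ : ∃ i, i = Nat.find hex := ⟨_, rfl⟩
  have hin : n ≤ (2 ^ i) ^ (16 * T) := by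
    rw [hi]
    exact Nat.find_spec hex
  -- `16 T` is small
  have h16T : 16 * T ≤ 2 ^ (A + 4) := by
    rw [pow_add]
    omega
  have hnT : 2 ^ (16 * T) ≤ n := by
    refine le_trans (Nat.pow_le_pow_right (by norm_num) ?_) hn
    refine h16T.trans (Nat.pow_le_pow_right (by norm_num) ?_)
    omega
  have hin2 : (2 ^ i) ^ (16 * T) ≤ n ^ 2 := by
    rcases Nat.eq_zero_or_pos i with h0 | h0
    · rw [h0, pow_zero, one_pow]
      have h1 : 1 ≤ n := (Nat.one_le_two_pow).trans hnT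
      exact Nat.one_le_pow _ _ h1
    · have h1 : ¬ n ≤ (2 ^ (i - 1)) ^ (16 * T) := by
        have h2 : i - 1 < Nat.find hex := by omega
        exact Nat.find_min hex h2
      have h2 : (2 ^ i) ^ (16 * T) = (2 ^ (i - 1)) ^ (16 * T) * 2 ^ (16 * T) := by
        rw [← mul_pow, ← pow_succ]
        congr 2
        omega
      rw [h2, sq]
      exact Nat.mul_le_mul (by omega) hnT
  -- `i` is large
  have hiT : 2 ^ (C * r) ≤ i * (16 * T) := by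
    have h0 : 2 ^ (i * (16 * T)) = (2 ^ i) ^ (16 * T) := pow_mul 2 i (16 * T)
    have h1 : 2 ^ 2 ^ (C * r) ≤ 2 ^ (i * (16 * T)) := by
      rw [h0]
      exact hn.trans hin
    exact (Nat.pow_le_pow_iff_right (by norm_num)).1 h1
  have hiA : 2 ^ (A + 4) ≤ i := by
    have h1 : 2 ^ (A + 4) * 2 ^ (A + 4) ≤ i * 2 ^ (A + 4) := by
      calc 2 ^ (A + 4) * 2 ^ (A + 4) = 2 ^ (2 * A + 8) := by
            rw [← pow_add]
            congr 1
            ring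
        _ ≤ 2 ^ (C * r) := Nat.pow_le_pow_right (by norm_num) hAC
        _ ≤ i * (16 * T) := hiT
        _ ≤ i * 2 ^ (A + 4) := Nat.mul_le_mul_left _ h16T
    exact Nat.le_of_mul_le_mul_right h1 (by positivity)
  have hA16 : 16 * 2 ^ A ≤ i := by
    have : 2 ^ (A + 4) = 16 * 2 ^ A := by
      rw [pow_add]
      ring
    omega
  have hA1 : 1 ≤ 2 ^ A := Nat.one_le_two_pow
  have hrA : r + 1 ≤ 2 ^ A := by
    have h1 : r + 1 ≤ A := by
      rw [hA]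
      exact Nat.le_mul_of_pos_left _ (by omega)
    exact h1.trans (Nat.lt_two_pow_self (n := A)).le
  have hi2 : 2 ^ i + (16 * T + r + 1) * (i + 1) ≤ 4 ^ i :=
    four_pow (by omega) (by omega) (by omega)
  obtain ⟨N, hN⟩ : ∃ N, N = (2 ^ i) ^ (16 * T) := ⟨_, rfl⟩
  obtain ⟨f, h1, h2, h3⟩ := hcore i (by omega) (by omega) hi2 N hN
  have hNi : 2 ^ i ≤ N := by
    rw [hN]
    exact Nat.le_self_pow (by omega) _
  have hN1 : 1 ≤ N := Nat.one_le_two_pow.trans hNi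
  have hN1r : (1 : ℝ) ≤ N := by exact_mod_cast hN1
  have hNpos : (0 : ℝ) < N := by linarith
  have he0 : 0 < e := by rw [he]; positivity
  have hNe : (N : ℝ) ^ e ≤ 2 ^ i := by
    have h4 : e ≤ ((16 * T : ℕ) : ℝ)⁻¹ := by
      rw [he, one_div]
      refine inv_anti₀ ?_ ?_
      · have : 0 < 16 * T := by omega
        exact_mod_cast this
      · have h5 : 16 * T ≤ 2 ^ (C * r) :=
          h16T.trans (Nat.pow_le_pow_right (by norm_num) (by omega))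
        exact_mod_cast h5
    refine (Real.rpow_le_rpow_of_exponent_le hN1r h4).trans (le_of_eq ?_)
    rw [hN]
    push_cast
    have h5 := Real.pow_rpow_inv_natCast (x := (2 : ℝ) ^ i) (by positivity)
      (show 16 * T ≠ 0 by omega)
    push_cast at h5
    exact h5
  have hNe0 : 0 < (N : ℝ) ^ e := Real.rpow_pos_of_pos hNpos _
  have hinv : (2 ^ i : ℝ)⁻¹ ≤ (N : ℝ) ^ (-e) := by
    rw [Real.rpow_neg hNpos.le]
    exact inv_anti₀ hNe0 hNe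
  have h2N : (0 : ℝ) < 2 ^ N := by positivity
  refine ⟨N, by rw [hN]; exact hin, by rw [hN]; exact hin2, f, fun S P hS hP => ?_, fun y => ?_,
    ?_⟩
  · have hS2 : S ≤ 2 ^ (2 ^ i) := by
      have h6 : (S : ℝ) ≤ (2 : ℝ) ^ ((2 : ℝ) ^ i) :=
        hS.trans (Real.rpow_le_rpow_of_exponent_le (by norm_num) hNe)
      have h7 : (2 : ℝ) ^ ((2 : ℝ) ^ i) = ((2 ^ (2 ^ i) : ℕ) : ℝ) := by
        push_cast
        rw [← Real.rpow_natCast 2 (2 ^ i)]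
        push_cast
        rfl
      rw [h7] at h6
      exact_mod_cast h6
    obtain ⟨h6, h7⟩ := h2 S P hS2 hP
    exact ⟨h6.trans (mul_le_mul_of_nonneg_right hinv h2N.le),
      h7.trans (mul_le_mul_of_nonneg_right hinv h2N.le)⟩
  · refine le_trans ?_ (h1 y)
    refine mul_le_mul_of_nonneg_right ?_ h2N.le
    linarith
  · obtain ⟨Q, Γ, hQ, hΓ, P₀, h4, h5, h6⟩ := h3
    refine ⟨Q, Γ, hQ, hΓ, P₀, h4, h5, fun I => ⟨(h6 I).1, (h6 I).2.trans ?_⟩⟩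
    rw [sub_eq_add_neg, Real.rpow_add hNpos, Real.rpow_one]
    exact mul_le_mul_of_nonneg_left hinv hNpos.le

end Pool.Agent.Helper99.RTB
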