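import Pool.Agent.Helper74.NW.Model
import Pool.Agent.Helper99.NK.Times

/-!
# Change of the names of the cells and of the symbols
-/

set_option autoImplicit false

namespace Pool.Agent.Helper99.RTB

open Pool.Agent.Helper19.NF Pool.Agent.Helper74.NW
open Pool.Agent.Helper99.NK (times count_eq_times)

variable {C C' W W' : Type} {S : ℕ}

/-- the program with other names -/
def tr (e : C ≃ C') (u : W ≃ W') (P : NProg C' W' W' S) : NProg C W W S where
  start := P.start
  act s := match P.act s with
    | Sum.inl (c, next) => Sum.inl (e.symm c, fun w => next (u w))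
    | Sum.inr z => Sum.inr (u.symm z)

theorem run_tr (e : C ≃ C') (u : W ≃ W') (P : NProg C' W' W' S) (I : C → W) {s t : Fin S}
    {l : List C'} (h : P.Run (Equiv.arrowCongr e u I) s l t) :
    (tr e u P).Run I s (l.map e.symm) t := by
  induction h with
  | nil s => exact NProg.Run.nil s
  | cons s s' t c next l h1 h2 _ ih =>
    refine NProg.Run.cons s s' t (e.symm c) (fun w => next (u w)) (l.map e.symm) ?_ ?_ ih
    · show (match P.act s with
        | Sum.inl (c, next) => Sum.inl (e.symm c, fun w => next (u w))
        | Sum.inr z => Sum.inr (u.symm z)) = _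
      rw [h1]
    · have h3 : Equiv.arrowCongr e u I c = u (I (e.symm c)) := rfl
      rw [h3] at h2
      exact h2

theorem tr_run (e : C ≃ C') (u : W ≃ W') (P : NProg C' W' W' S) (I : C → W) {s t : Fin S}
    {l : List C} (h : (tr e u P).Run I s l t) : P.Run (Equiv.arrowCongr e u I) s (l.map e) t := by
  induction h with
  | nil s => exact NProg.Run.nil s
  | cons s s' t c next l h1 h2 _ ih =>
    have h3 : (match P.act s with
        | Sum.inl (c, next) => Sum.inl (e.symm c, fun w => next (u w))
        | Sum.inr z => Sum.inr (u.symm z)) = (Sum.inl (c, next) : (C × (W → Set (Fin S))) ⊕ W) := h1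
    rcases h4 : P.act s with ⟨c', next'⟩ | z
    · rw [h4] at h3
      simp only [Sum.inl.injEq, Prod.mk.injEq] at h3
      obtain ⟨h5, h6⟩ := h3
      refine NProg.Run.cons s s' t (e c) next' (l.map e) ?_ ?_ ih
      · rw [h4, ← h5, Equiv.apply_symm_apply]
      · have h7 : Equiv.arrowCongr e u I (e c) = u (I (e.symm (e c))) := rfl
        rw [h7, Equiv.symm_apply_apply]
        rw [← h6] at h2
        exact h2
    · rw [h4] at h3
      simp at h3

theorem tr_act (e : C ≃ C') (u : W ≃ W') (P : NProg C' W' W' S) {t : Fin S} {z : W} :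
    (tr e u P).act t = Sum.inr z ↔ P.act t = Sum.inr (u z) := by
  have h0 : (tr e u P).act t = (match P.act t with
        | Sum.inl (c, next) => Sum.inl (e.symm c, fun w => next (u w))
        | Sum.inr z => Sum.inr (u.symm z)) := rfl
  rw [h0]
  rcases h4 : P.act t with ⟨c', next'⟩ | z'
  · simp
  · simp only [Sum.inr.injEq]
    rw [Equiv.symm_apply_eq]

theorem tr_ends (e : C ≃ C') (u : W ≃ W') (P : NProg C' W' W' S) (I : C → W) (l : List C) (z : W) :
    (tr e u P).Ends I l z ↔ P.Ends (Equiv.arrowCongr e u I) (l.map e) (u z) := by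
  constructor
  · rintro ⟨t, h1, h2⟩
    exact ⟨t, tr_run e u P I h1, (tr_act e u P).1 h2⟩
  · rintro ⟨t, h1, h2⟩
    refine ⟨t, ?_, (tr_act e u P).2 h2⟩
    have h3 := run_tr e u P I h1
    have h4 : (l.map e).map e.symm = l := by
      rw [List.map_map]
      simp
    rw [h4] at h3
    exact h3

theorem ends_tr (e : C ≃ C') (u : W ≃ W') (P : NProg C' W' W' S) (I : C → W) (l : List C')
    (z : W') : P.Ends (Equiv.arrowCongr e u I) l z ↔
      (tr e u P).Ends I (l.map e.symm) (u.symm z) := by
  rw [tr_ends, Equiv.apply_symm_apply, List.map_map]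
  simp

theorem times_map (e : C ≃ C') (l : List C) (x : C) : times (l.map e) (e x) = times l x := by
  classical
  rw [← count_eq_times instBEqOfDecidableEq inferInstance, ← count_eq_times instBEqOfDecidableEq
    inferInstance]
  exact List.count_map_of_injective l e e.injective x

theorem card_times [Finite C] [Finite C'] (e : C ≃ C') (l : List C) (r : ℕ) :
    Nat.card {x // times (l.map e) x ≤ r} = Nat.card {x // times l x ≤ r} := by
  refine (Nat.card_congr (e.subtypeEquiv fun x => ?_)).symm
  rw [times_map]

/-- the inputs -/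
theorem card_inputs (e : C ≃ C') (u : W ≃ W') (p : (C' → W') → Prop) :
    Nat.card {I' // p I'} = Nat.card {I // p (Equiv.arrowCongr e u I)} :=
  (Nat.card_congr ((Equiv.arrowCongr e u).subtypeEquiv fun _ => Iff.rfl)).symm

variable {Q Γ : Type}

/-- the deterministic pushdown program with other names -/
def ptr (e : C ≃ C') (u : W ≃ W') (P : PProg C W W Q Γ) : PProg C' W' W' Q Γ where
  start := P.start
  act q := match P.act q with
    | .ask c next => .ask (e c) (fun w => next (u.symm w))
    | .push g s => .push g s
    | .pop next => .pop next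
    | .out z => .out (u z)

theorem ptr_step (e : C ≃ C') (u : W ≃ W') (P : PProg C W W Q Γ) (I : C → W) (x : Q × List Γ) :
    (ptr e u P).step (Equiv.arrowCongr e u I) x = P.step I x := by
  have h0 : (ptr e u P).act x.1 = (match P.act x.1 with
    | .ask c next => .ask (e c) (fun w => next (u.symm w))
    | .push g s => .push g s
    | .pop next => .pop next
    | .out z => .out (u z)) := rfl
  unfold PProg.step
  rw [h0]
  rcases P.act x.1 with ⟨c, next⟩ | ⟨g, s⟩ | next | z
  · have h7 : Equiv.arrowCongr e u I (e c) = u (I (e.symm (e c))) := rfl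
    simp only
    rw [h7, Equiv.symm_apply_apply, Equiv.symm_apply_apply]
  · rfl
  · rfl
  · rfl

theorem ptr_conf (e : C ≃ C') (u : W ≃ W') (P : PProg C W W Q Γ) (I : C → W) (j : ℕ) :
    (ptr e u P).conf (Equiv.arrowCongr e u I) j = P.conf I j := by
  unfold PProg.conf
  have h : (ptr e u P).step (Equiv.arrowCongr e u I) = P.step I := by
    funext x
    exact ptr_step e u P I x
  rw [h]
  rfl

theorem ptr_outputs (e : C ≃ C') (u : W ≃ W') (P : PProg C W W Q Γ) (I : C → W) {z : W}
    (h : P.Outputs I z) : (ptr e u P).Outputs (Equiv.arrowCongr e u I) (u z) := by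
  obtain ⟨j, hj⟩ := h
  refine ⟨j, ?_⟩
  rw [ptr_conf]
  have h0 : (ptr e u P).act (P.conf I j).1 = (match P.act (P.conf I j).1 with
    | .ask c next => .ask (e c) (fun w => next (u.symm w))
    | .push g s => .push g s
    | .pop next => .pop next
    | .out z => .out (u z)) := rfl
  rw [h0, hj]

theorem ptr_asks (e : C ≃ C') (u : W ≃ W') (P : PProg C W W Q Γ) (I : C → W) {c : C'}
    (h : (ptr e u P).Asks (Equiv.arrowCongr e u I) c) : P.Asks I (e.symm c) := by
  obtain ⟨j, next, hj⟩ := h
  rw [ptr_conf] at hj
  have h0 : (ptr e u P).act (P.conf I j).1 = (match P.act (P.conf I j).1 with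
    | .ask c next => .ask (e c) (fun w => next (u.symm w))
    | .push g s => .push g s
    | .pop next => .pop next
    | .out z => .out (u z)) := rfl
  rw [h0] at hj
  rcases h1 : P.act (P.conf I j).1 with ⟨c', next'⟩ | ⟨g, s⟩ | next' | z
  · rw [h1] at hj
    simp only [PAct.ask.injEq] at hj
    refine ⟨j, next', ?_⟩
    rw [h1, ← hj.1, Equiv.symm_apply_apply]
  · rw [h1] at hj
    simp at hj
  · rw [h1] at hj
    simp at hj
  · rw [h1] at hj
    simp at hj

end Pool.Agent.Helper99.RTB
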