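import Pool.Agent.Helper99.RTB.Core

/-!
# Boolean functions: the clean form, with bits as inputs and results
-/

set_option autoImplicit false

namespace Pool.Agent.Helper99.RTB

open Pool.Agent.Helper19.NF Pool.Agent.Helper74.NW
open Pool.Agent.Helper99.NK (times card_mono)
open Pool.Agent.Helper96.PH (Unamb)

theorem coreB (δ : ℝ) (hδ : 0 < δ) : ∃ c₀ : ℕ, 1 ≤ c₀ ∧ ∀ r : ℕ, ∃ T : ℕ, 1 ≤ T ∧
    T ≤ 2 ^ (c₀ * (r + 1)) ∧
    ∀ i : ℕ, 1 ≤ i → 2 ^ (c₀ * (r + 1)) ≤ i → 2 ^ i + (16 * T + r + 1) * (i + 1) ≤ 4 ^ i →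
    ∀ N : ℕ, N = (2 ^ i) ^ (16 * T) → ∃ f : (Fin N → Bool) → Bool,
      (∀ y, (1 / 2 - (2 ^ i : ℝ)⁻¹) * 2 ^ N ≤ Nat.card {I // f I = y}) ∧
      (∀ (S : ℕ) (P : NProg (Fin N) Bool Bool S), S ≤ 2 ^ (2 ^ i) →
        (∀ I l z, P.Ends I l z → z = f I) →
        (Nat.card {I // ∃ l z, P.Ends I l z ∧ l.length ≤ r * N} : ℝ) ≤ (2 ^ i : ℝ)⁻¹ * 2 ^ N ∧
        (Nat.card {I // (∃ l z, P.Ends I l z) ∧
            ∀ l z, P.Ends I l z → (1 / 2 + δ) * N ≤ Nat.card {x // times l x ≤ r}} : ℝ) ≤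
          (2 ^ i : ℝ)⁻¹ * 2 ^ N) ∧
      ∃ (Q Γ : Type) (_ : Finite Q) (_ : Finite Γ) (P : PProg (Fin N) Bool Bool Q Γ),
        Nat.card Q ≤ N ^ 3 ∧ Nat.card Γ ≤ N ∧
        ∀ I, P.Outputs I (f I) ∧ (Nat.card {x // P.Asks I x} : ℝ) ≤ N * (2 ^ i : ℝ)⁻¹ := by
  classical
  obtain ⟨c₀, hc₀, h⟩ := core δ hδ
  refine ⟨c₀, hc₀, fun r => ?_⟩
  obtain ⟨T, hT1, hT2, hcore⟩ := h r
  refine ⟨T, hT1, hT2, fun i hi1 hi2 hi3 N hN => ?_⟩
  obtain ⟨C, hC, f, hCN, h1, h2, Q, Γ, hQ, hΓ, P₀, h3, h4, h5⟩ := hcore i hi1 hi2 hi3 N hN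
  obtain ⟨e⟩ : Nonempty (C ≃ Fin N) := ⟨Finite.equivFinOfCardEq hCN⟩
  obtain ⟨u⟩ : Nonempty (ZMod 2 ≃ Bool) := by
    refine ⟨Fintype.equivOfCardEq ?_⟩
    rw [ZMod.card, Fintype.card_bool]
  have hcard : Nat.card (C → ZMod 2) = 2 ^ N := by
    rw [Nat.card_fun, hCN, Nat.card_eq_fintype_card, ZMod.card]
  have hcard' : (Nat.card (C → ZMod 2) : ℝ) = 2 ^ N := by
    rw [hcard]
    push_cast
    rfl
  rw [hcard'] at h1
  simp only [hcard'] at h2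
  obtain ⟨f', hf'⟩ : ∃ f' : (Fin N → Bool) → Bool,
    f' = fun I' => u (f ((Equiv.arrowCongr e u).symm I')) := ⟨_, rfl⟩
  have hf : ∀ I, f' (Equiv.arrowCongr e u I) = u (f I) := by
    intro I
    rw [hf']
    simp only
    rw [Equiv.symm_apply_apply]
  refine ⟨f', fun y => ?_, fun S P hS hP => ?_, Q, Γ, hQ, hΓ, ptr e u P₀, h3, h4, fun I' => ?_⟩
  · rw [card_inputs e u]
    have h6 : Nat.card {I // f' (Equiv.arrowCongr e u I) = y} = Nat.card {I // f I = u.symm y} := by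
      refine Nat.card_congr (Equiv.subtypeEquivRight fun I => ?_)
      rw [hf, Equiv.eq_symm_apply]
    rw [h6]
    exact h1 _
  · have hP' : ∀ I l z, (tr e u P).Ends I l z → z = f I := by
      intro I l z hz
      have h6 := hP _ _ _ ((tr_ends e u P I l z).1 hz)
      rw [hf] at h6
      exact u.injective h6
    obtain ⟨h6, h7⟩ := h2 S (tr e u P) hS hP'
    rw [card_inputs e u, card_inputs e u]
    refine ⟨le_trans ?_ h6, le_trans ?_ h7⟩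
    · refine card_mono fun I hI => ?_
      obtain ⟨l, z, hz, hl⟩ := hI
      exact ⟨l.map e.symm, u.symm z, (ends_tr e u P I l z).1 hz, by rwa [List.length_map]⟩
    · refine card_mono fun I hI => ?_
      obtain ⟨⟨l, z, hz⟩, hall⟩ := hI
      refine ⟨⟨l.map e.symm, u.symm z, (ends_tr e u P I l z).1 hz⟩, fun l z hlz => ?_⟩
      have h8 := hall _ _ ((tr_ends e u P I l z).1 hlz)
      rwa [card_times e l r] at h8
  · obtain ⟨I, rfl⟩ := (Equiv.arrowCongr e u).surjective I'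
    refine ⟨?_, le_trans ?_ (h5 I).2⟩
    · rw [hf]
      exact ptr_outputs e u P₀ I (h5 I).1
    · refine Nat.cast_le.2 (Nat.card_le_card_of_injective
        (fun x : {x // (ptr e u P₀).Asks (Equiv.arrowCongr e u I) x} =>
          (⟨e.symm x.1, ptr_asks e u P₀ I x.2⟩ : {x // P₀.Asks I x})) ?_)
      intro x y hxy
      have h6 := congrArg (fun z : {x // P₀.Asks I x} => z.1) hxy
      exact Subtype.ext (e.symm.injective h6)

/-- constant factors -/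
theorem clean (r : ℕ) (δ : ℝ) (hδ : 0 < δ) : ∃ c : ℝ, 0 < c ∧ ∀ N₀ : ℕ, ∃ N : ℕ, N₀ ≤ N ∧
    ∃ f : (Fin N → Bool) → Bool,
      (∀ y, (1 / 2 - (N : ℝ) ^ (-c)) * 2 ^ N ≤ Nat.card {I // f I = y}) ∧
      (∀ (S : ℕ) (P : NProg (Fin N) Bool Bool S), (S : ℝ) ≤ 2 ^ ((N : ℝ) ^ c) →
        (∀ I l z, P.Ends I l z → z = f I) →
        (Nat.card {I // ∃ l z, P.Ends I l z ∧ l.length ≤ r * N} : ℝ) ≤ (N : ℝ) ^ (-c) * 2 ^ N ∧
        (Nat.card {I // (∃ l z, P.Ends I l z) ∧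
            ∀ l z, P.Ends I l z → (1 / 2 + δ) * N ≤ Nat.card {x // times l x ≤ r}} : ℝ) ≤
          (N : ℝ) ^ (-c) * 2 ^ N) ∧
      ∃ (Q Γ : Type) (_ : Finite Q) (_ : Finite Γ) (P : PProg (Fin N) Bool Bool Q Γ),
        Nat.card Q ≤ N ^ 3 ∧ Nat.card Γ ≤ N ∧
        ∀ I, P.Outputs I (f I) ∧ (Nat.card {x // P.Asks I x} : ℝ) ≤ (N : ℝ) ^ (1 - c) := by
  obtain ⟨c₀, hc₀, h⟩ := coreB δ hδ
  obtain ⟨T, hT1, hT2, hcore⟩ := h r
  obtain ⟨c, hc⟩ : ∃ c : ℝ, c = ((16 * T : ℕ) : ℝ)⁻¹ := ⟨_, rfl⟩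
  have hT0 : (0 : ℝ) < ((16 * T : ℕ) : ℝ) := by
    have : 0 < 16 * T := by omega
    exact_mod_cast this
  refine ⟨c, by rw [hc]; positivity, fun N₀ => ?_⟩
  obtain ⟨i, hi0, hi1, hi2⟩ := exists_i (16 * T + r + 1) (N₀ + 2 ^ (c₀ * (r + 1)))
  obtain ⟨N, hN⟩ : ∃ N, N = (2 ^ i) ^ (16 * T) := ⟨_, rfl⟩
  obtain ⟨f, h1, h2, h3⟩ := hcore i hi1 (by omega) hi2 N hN
  have hNc : (N : ℝ) ^ c = 2 ^ i := by
    rw [hN, hc]
    push_cast
    have h1 := Real.pow_rpow_inv_natCast (x := (2 : ℝ) ^ i) (by positivity)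
      (show 16 * T ≠ 0 by omega)
    push_cast at h1
    exact h1
  have hNi : 2 ^ i ≤ N := by
    rw [hN]
    exact Nat.le_self_pow (by omega) _
  have hN1 : 1 ≤ N := Nat.one_le_two_pow.trans hNi
  have hNpos : (0 : ℝ) < N := by exact_mod_cast hN1
  have hNc' : (N : ℝ) ^ (-c) = (2 ^ i)⁻¹ := by rw [Real.rpow_neg hNpos.le, hNc]
  have hN₀ : N₀ ≤ N := by
    have : i < 2 ^ i := Nat.lt_two_pow_self
    omega
  refine ⟨N, hN₀, f, ?_, fun S P hS hP => ?_, ?_⟩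
  · rw [hNc']
    exact h1
  · rw [hNc'] 
    refine h2 S P ?_ hP
    rw [hNc] at hS
    have h4 : (S : ℝ) ≤ (2 : ℝ) ^ ((2 : ℝ) ^ i) := hS
    have h5 : (2 : ℝ) ^ ((2 : ℝ) ^ i) = ((2 ^ (2 ^ i) : ℕ) : ℝ) := by
      push_cast
      rw [← Real.rpow_natCast 2 (2 ^ i)]
      push_cast
      rfl
    rw [h5] at h4
    exact_mod_cast h4
  · rw [sub_eq_add_neg, Real.rpow_add hNpos, Real.rpow_one, hNc']
    exact h3

/-- superlinear length -/
theorem loglog : ∃ c : ℝ, 0 < c ∧ ∀ N₀ : ℕ, ∃ N : ℕ, N₀ ≤ N ∧ ∃ f : (Fin N → Bool) → Bool,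
      (∀ (S : ℕ) (P : NProg (Fin N) Bool Bool S),
        (S : ℝ) ≤ 2 ^ ((2 : ℝ) ^ (c * √(Real.log N))) → (∀ I l z, P.Ends I l z → z = f I) →
        (Nat.card {I // ∃ l z, P.Ends I l z ∧
          (l.length : ℝ) ≤ c * N * Real.log (Real.log N)} : ℝ) ≤
          2 ^ (-(c * √(Real.log N))) * 2 ^ N) ∧
      ∃ (Q Γ : Type) (_ : Finite Q) (_ : Finite Γ) (P : PProg (Fin N) Bool Bool Q Γ),
        Nat.card Q ≤ N ^ 3 ∧ Nat.card Γ ≤ N ∧ ∀ I, P.Outputs I (f I) := by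
  obtain ⟨c₀, hc₀, h⟩ := coreB (1 / 4) (by norm_num)
  obtain ⟨c, hc⟩ : ∃ c : ℝ, c = 1 / (8 * c₀) := ⟨_, rfl⟩
  have hc₀r : (1 : ℝ) ≤ c₀ := by exact_mod_cast hc₀
  have hc0 : 0 < c := by rw [hc]; positivity
  have hc1 : c ≤ 1 / 8 := by
    rw [hc]
    exact one_div_le_one_div_of_le (by norm_num) (by linarith)
  refine ⟨c, hc0, fun N₀ => ?_⟩
  obtain ⟨r, hr⟩ : ∃ r, r = N₀ + 3 := ⟨_, rfl⟩
  obtain ⟨T, hT1, hT2, hcore⟩ := h r
  obtain ⟨i, hi⟩ : ∃ i, i = 2 ^ (c₀ * (r + 1)) := ⟨_, rfl⟩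
  have hri : 2 ^ (r + 1) ≤ i := by
    rw [hi]
    exact Nat.pow_le_pow_right (by norm_num) (Nat.le_mul_of_pos_left _ (by omega))
  have h16 : 16 ≤ i := by
    refine le_trans ?_ hri
    calc 16 = 2 ^ 4 := by norm_num
      _ ≤ 2 ^ (r + 1) := Nat.pow_le_pow_right (by norm_num) (by omega)
  have hr1 : r + 1 ≤ i := (Nat.lt_two_pow_self (n := r + 1)).le.trans hri
  rw [← hi] at hT2
  have hi2 : 2 ^ i + (16 * T + r + 1) * (i + 1) ≤ 4 ^ i := by
    obtain ⟨t, ht⟩ : ∃ t, i = 2 * t := by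
      refine ⟨2 ^ (c₀ * (r + 1) - 1), ?_⟩
      rw [hi, ← pow_succ']
      congr 1
      have : 1 ≤ c₀ * (r + 1) := Nat.one_le_iff_ne_zero.2 (by positivity)
      omega
    have h1 : t + 1 ≤ 2 ^ t := Nat.lt_two_pow_self
    have h2 : (t + 1) ^ 2 ≤ 2 ^ i := by
      rw [ht, mul_comm, pow_mul]
      exact Nat.pow_le_pow_left h1 2
    have h3 : (4 : ℕ) ^ i = 2 ^ i * 2 ^ i := by
      rw [← mul_pow]
      norm_num
    have h4 : 137 ≤ 2 ^ i := by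
      calc 137 ≤ 2 ^ 16 := by norm_num
        _ ≤ 2 ^ i := Nat.pow_le_pow_right (by norm_num) h16
    have h5 : (16 * T + r + 1) * (i + 1) ≤ 136 * (t + 1) ^ 2 := by
      have h6 : 16 * T + r + 1 ≤ 17 * i := by omega
      refine (Nat.mul_le_mul_right _ h6).trans ?_
      rw [ht]
      nlinarith
    have h7 : 136 * (t + 1) ^ 2 ≤ 136 * 2 ^ i := Nat.mul_le_mul_left _ h2
    rw [h3]
    nlinarith
  obtain ⟨N, hN⟩ : ∃ N, N = (2 ^ i) ^ (16 * T) := ⟨_, rfl⟩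
  obtain ⟨f, -, h2, Q, Γ, hQ, hΓ, P₀, h3, h4, h5⟩ := hcore i (by omega) (by rw [hi]) hi2 N hN
  have hNi : 2 ^ i ≤ N := by
    rw [hN]
    exact Nat.le_self_pow (by omega) _
  have hN₀ : N₀ ≤ N := by
    have : i < 2 ^ i := Nat.lt_two_pow_self
    omega
  have hir : (0 : ℝ) < i := by
    have : 0 < i := by omega
    exact_mod_cast this
  have hl2 : Real.log 2 < 0.7 := by
    have := Real.log_two_lt_d9
    linarith
  have hl2' : 0 < Real.log 2 := Real.log_pos (by norm_num)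
  have hlogN : Real.log N ≤ 12 * i ^ 2 := by
    rw [hN]
    push_cast
    rw [Real.log_pow, Real.log_pow]
    push_cast
    have h6 : (T : ℝ) ≤ i := by exact_mod_cast hT2
    have h7 : (0 : ℝ) ≤ T := Nat.cast_nonneg _
    calc 16 * (T : ℝ) * (i * Real.log 2) ≤ 16 * (i : ℝ) * (i * 0.7) := by
          refine mul_le_mul (by linarith) ?_ (by positivity) (by positivity)
          exact mul_le_mul_of_nonneg_left hl2.le hir.le
      _ ≤ 12 * i ^ 2 := by nlinarith [sq_nonneg (i : ℝ)]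
  have hsq : c * √(Real.log N) ≤ i := by
    have h6 : √(Real.log N) ≤ 4 * i := by
      rw [Real.sqrt_le_left (by positivity)]
      nlinarith
    have h7 : 0 ≤ √(Real.log N) := Real.sqrt_nonneg _
    nlinarith
  have hlog0 : 0 < Real.log N := by
    refine Real.log_pos ?_
    have h6 : 1 < N := by
      have : 2 ^ 1 ≤ 2 ^ i := Nat.pow_le_pow_right (by norm_num) (by omega)
      omega
    exact_mod_cast h6
  have hll : c * Real.log (Real.log N) ≤ r := by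
    have h6 : Real.log (Real.log N) ≤ Real.log (12 * i ^ 2) := Real.log_le_log hlog0 hlogN
    have h7 : Real.log (12 * (i : ℝ) ^ 2) = Real.log 12 + 2 * (c₀ * (r + 1) * Real.log 2) := by
      rw [Real.log_mul (by norm_num) (by positivity), Real.log_pow, hi]
      push_cast
      rw [Real.log_pow]
      push_cast
      ring
    have h8 : Real.log 12 ≤ 4 * Real.log 2 := by
      have h9 : Real.log 12 ≤ Real.log (2 ^ 4) := Real.log_le_log (by norm_num) (by norm_num)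
      rwa [Real.log_pow] at h9
    have hr3 : (3 : ℝ) ≤ r := by
      have : 3 ≤ r := by omega
      exact_mod_cast this
    have h9 : Real.log (Real.log N) ≤ 8 * c₀ * r := by
      rw [h7] at h6
      have h10 : (c₀ : ℝ) * (r + 1) * Real.log 2 ≤ c₀ * (r + 1) * 0.7 :=
        mul_le_mul_of_nonneg_left hl2.le (by positivity)
      nlinarith
    rw [hc, one_div, inv_mul_le_iff₀ (by positivity)]
    linarith
  refine ⟨N, hN₀, f, fun S P hS hP => ?_, Q, Γ, hQ, hΓ, P₀, h3, h4, fun I => (h5 I).1⟩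
  have hpow : (2 : ℝ) ^ (c * √(Real.log N)) ≤ 2 ^ i := by
    rw [← Real.rpow_natCast 2 i]
    exact Real.rpow_le_rpow_of_exponent_le (by norm_num) hsq
  have hS2 : S ≤ 2 ^ (2 ^ i) := by
    have h6 : (S : ℝ) ≤ (2 : ℝ) ^ ((2 : ℝ) ^ i) :=
      hS.trans (Real.rpow_le_rpow_of_exponent_le (by norm_num) hpow)
    have h7 : (2 : ℝ) ^ ((2 : ℝ) ^ i) = ((2 ^ (2 ^ i) : ℕ) : ℝ) := by
      push_cast
      rw [← Real.rpow_natCast 2 (2 ^ i)]
      push_cast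
      rfl
    rw [h7] at h6
    exact_mod_cast h6
  refine le_trans ?_ ((h2 S P hS2 hP).1.trans ?_)
  · refine card_mono fun I hI => ?_
    obtain ⟨l, z, hz, hl⟩ := hI
    refine ⟨l, z, hz, ?_⟩
    have h6 : (l.length : ℝ) ≤ r * N := by
      refine hl.trans ?_
      have h7 : c * N * Real.log (Real.log N) = c * Real.log (Real.log N) * N := by ring
      rw [h7]
      exact mul_le_mul_of_nonneg_right hll (Nat.cast_nonneg _)
    exact_mod_cast h6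
  · refine mul_le_mul_of_nonneg_right ?_ (by positivity)
    rw [Real.rpow_neg (by norm_num)]
    exact inv_anti₀ (Real.rpow_pos_of_pos (by norm_num) _) hpow

/-- every program has an equivalent one which queries nearly half of the bits at most once -/
theorem most_once (δ : ℝ) (hδ : 0 < δ) (N S : ℕ) (hN : 1 ≤ N) (P : NProg (Fin N) Bool Bool S) :
    ∃ (S' : ℕ) (P' : NProg (Fin N) Bool Bool S'), S' ≤ (N + 1) ^ 3 * (2 * S + 1) ∧
      (Unamb P → Unamb P') ∧ (∀ I z, (∃ l, P'.Ends I l z) ↔ ∃ l, P.Ends I l z) ∧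
      (Nat.card {I : Fin N → Bool // ¬ ∀ l z, P'.Ends I l z →
        (1 / 2 - δ) * N ≤ Nat.card {x // times l x ≤ 1}} : ℝ) ≤ 4 / (δ ^ 2 * N) * 2 ^ N := by
  obtain ⟨S', P', h1, h2, h3, h4⟩ := Pool.Agent.Helper74.RT.most_once_unamb P true
    (⟨0, by omega⟩ : Fin N) hδ
  have hb : Nat.card Bool = 2 := by rw [Nat.card_eq_fintype_card, Fintype.card_bool]
  have hc : (Nat.card (Fin N → Bool) : ℝ) = 2 ^ N := by
    rw [Nat.card_fun, hb, Nat.card_eq_fintype_card, Fintype.card_fin]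
    push_cast
    rfl
  have hn : Nat.card (Fin N) = N := by rw [Nat.card_eq_fintype_card, Fintype.card_fin]
  rw [hn, hb] at h1
  rw [hc, hn, hb] at h4
  push_cast at h4
  exact ⟨S', P', h1, h2, h3, h4⟩

end Pool.Agent.Helper99.RTB
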