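import Pool.Agent.Helper27.RT.FinalM
import Pool.Agent.Helper99.RTB.Trans

/-!
# Boolean functions: the clean form
-/

set_option autoImplicit false

namespace Pool.Agent.Helper99.RTB

open Pool.Agent.Helper19.NF Pool.Agent.Helper74.NW
open Pool.Agent.Helper99.NQ (Word)
open Pool.Agent.Helper43.NK (out)
open Pool.Agent.Helper99.NK (times card_mono)

/-- `4 ^ i` is large -/
lemma exists_i (Q N₀ : ℕ) : ∃ i : ℕ, N₀ ≤ i ∧ 1 ≤ i ∧ 2 ^ i + Q * (i + 1) ≤ 4 ^ i := by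
  obtain ⟨t, ht⟩ : ∃ t, t = 4 * Q + N₀ + 1 := ⟨_, rfl⟩
  refine ⟨2 * t, by omega, by omega, ?_⟩
  have h1 : t + 1 ≤ 2 ^ t := Nat.lt_two_pow_self
  have h2 : (t + 1) ^ 2 ≤ 2 ^ (2 * t) := by
    rw [mul_comm, pow_mul]
    exact Nat.pow_le_pow_left h1 2
  have h3 : Q * (2 * t + 1) + 1 ≤ 2 ^ (2 * t) := by
    refine le_trans ?_ h2
    nlinarith
  have h4 : (4 : ℕ) ^ (2 * t) = 2 ^ (2 * t) * 2 ^ (2 * t) := by
    rw [← mul_pow]
    norm_num
  rw [h4]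
  have h5 : 1 ≤ 2 ^ (2 * t) := Nat.one_le_two_pow
  nlinarith

/-- the numerical part and the function -/
theorem pre (r : ℕ) (δ : ℝ) (hδ : 0 < δ) : ∃ c : ℝ, 0 < c ∧ ∀ N₀ : ℕ, ∃ N : ℕ, N₀ ≤ N ∧ 1 ≤ N ∧
    ∃ (C : Type) (_ : Finite C) (f : (C → ZMod 2) → ZMod 2), Nat.card C = N ∧
      (∀ y, (1 / 2 - (N : ℝ) ^ (-c)) * Nat.card (C → ZMod 2) ≤ Nat.card {I // f I = y}) ∧
      (∀ (S : ℕ) (P : NProg C (ZMod 2) (ZMod 2) S), (S : ℝ) ≤ 2 ^ ((N : ℝ) ^ c) →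
        (∀ I l z, P.Ends I l z → z = f I) →
        (Nat.card {I : C → ZMod 2 // ∃ l z, P.Ends I l z ∧ l.length ≤ r * N} : ℝ) ≤
            (N : ℝ) ^ (-c) * Nat.card (C → ZMod 2) ∧
        (Nat.card {I : C → ZMod 2 // (∃ l z, P.Ends I l z) ∧
            ∀ l z, P.Ends I l z → (1 / 2 + δ) * N ≤ Nat.card {x // times l x ≤ r}} : ℝ) ≤
            (N : ℝ) ^ (-c) * Nat.card (C → ZMod 2)) ∧
      ∃ (Q Γ : Type) (_ : Finite Q) (_ : Finite Γ) (P : PProg C (ZMod 2) (ZMod 2) Q Γ),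
        Nat.card Q ≤ N ^ 3 ∧ Nat.card Γ ≤ N ∧
        ∀ I, P.Outputs I (f I) ∧ (Nat.card {x // P.Asks I x} : ℝ) ≤ (N : ℝ) ^ (1 - c) := by
  classical
  obtain ⟨δ', hδ'⟩ : ∃ δ' : ℝ, δ' = min δ (1 / 4) := ⟨_, rfl⟩
  have hδ'0 : 0 < δ' := by rw [hδ']; exact lt_min hδ (by norm_num)
  have hδ'1 : δ' ≤ δ := by rw [hδ']; exact min_le_left _ _
  have hδ'2 : δ' ≤ 1 / 4 := by rw [hδ']; exact min_le_right _ _
  obtain ⟨c₀, hc₀⟩ := Pool.Agent.Helper27.RT.finalM (ZMod 2) δ' hδ'0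
  obtain ⟨Cc, D, M, m, hm, -, -, hMm, hD, hM, hmain⟩ := hc₀ (4 * r)
  have hm0 : m ≠ 0 := NeZero.ne m
  obtain ⟨T, hT⟩ : ∃ T, T = D * m + 1 := ⟨_, rfl⟩
  have hT1 : 1 ≤ T := by omega
  obtain ⟨c, hc⟩ : ∃ c : ℝ, c = ((16 * T : ℕ) : ℝ)⁻¹ := ⟨_, rfl⟩
  have hT0 : (0 : ℝ) < ((16 * T : ℕ) : ℝ) := by
    have : 0 < 16 * T := by omega
    exact_mod_cast this
  refine ⟨c, by rw [hc]; positivity, fun N₀ => ?_⟩
  obtain ⟨i, hi0, hi1, hi2⟩ := exists_i (16 * T + r + 1) (N₀ + Cc)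
  obtain ⟨a, ha⟩ : ∃ a, a = 4 ^ i := ⟨_, rfl⟩
  have ha1 : 1 ≤ a := by rw [ha]; exact Nat.one_le_pow _ _ (by norm_num)
  obtain ⟨G, hG, hgood⟩ := hmain a ha1
  -- a good `g`
  have hg : ∃ g, g ∈ G := by
    by_contra hcon
    push Not at hcon
    have h1 : Nat.card {g : Fin D → Equiv.Perm (Fin (M * a)) // g ∉ G} =
        Nat.card (Fin D → Equiv.Perm (Fin (M * a))) :=
      Nat.card_congr (Equiv.subtypeUnivEquiv fun g => hcon g)
    rw [h1] at hG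
    have h2 : 0 < Nat.card (Fin D → Equiv.Perm (Fin (M * a))) := Nat.card_pos
    have h3 : 2 ≤ 2 ^ (M * a) := by
      have : 1 ≤ M * a := Nat.one_le_iff_ne_zero.2 (by positivity)
      calc 2 = 2 ^ 1 := by norm_num
        _ ≤ 2 ^ (M * a) := Nat.pow_le_pow_right (by norm_num) this
    nlinarith
  obtain ⟨g, hg⟩ := hg
  -- the space of the cells
  obtain ⟨k, hk⟩ : ∃ k, k = 2 ^ (16 * i) := ⟨_, rfl⟩
  have hcardB : Nat.card (Fin (16 * i) → ZMod 2) = k := by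
    rw [Nat.card_eq_fintype_card, Fintype.card_fun, ZMod.card, Fintype.card_fin, hk]
  have hCi : Cc ≤ 2 ^ i := by
    have : i < 2 ^ i := Nat.lt_two_pow_self
    omega
  have haR : (a * a) ^ 2 = 2 ^ (8 * i) := by
    rw [ha, show (4 : ℕ) = 2 ^ 2 by norm_num, ← pow_mul, ← pow_add, ← pow_mul]
    congr 1
    ring
  have hCk : Cc * (a * a) ^ 2 ≤ k := by
    rw [haR, hk]
    calc Cc * 2 ^ (8 * i) ≤ 2 ^ i * 2 ^ (8 * i) := Nat.mul_le_mul_right _ hCi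
      _ = 2 ^ (i + 8 * i) := by rw [pow_add]
      _ ≤ 2 ^ (16 * i) := Nat.pow_le_pow_right (by norm_num) (by omega)
  have hinj : ∃ x0 : Fin (M * a) × Fin m → (Fin (16 * i) → ZMod 2), Function.Injective x0 := by
    have h1 : Fintype.card (Fin (M * a) × Fin m) ≤ Fintype.card (Fin (16 * i) → ZMod 2) := by
      rw [Fintype.card_prod, Fintype.card_fin, Fintype.card_fin, ← Nat.card_eq_fintype_card
        (α := Fin (16 * i) → ZMod 2), hcardB]
      refine le_trans ?_ hCk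
      calc M * a * m = M * m * a := by ring
        _ ≤ Cc * a := Nat.mul_le_mul_right _ hMm
        _ ≤ Cc * (a * a) ^ 2 := by
            refine Nat.mul_le_mul_left _ ?_
            nlinarith [Nat.mul_le_mul ha1 ha1]
    obtain ⟨φ⟩ := Function.Embedding.nonempty_of_card_le h1
    exact ⟨φ, φ.injective⟩
  obtain ⟨x0, hx0⟩ := hinj
  obtain ⟨N, hN⟩ : ∃ N, N = Nat.card ((Fin (16 * i) → ZMod 2) ×
    Word D m (Fin (16 * i) → ZMod 2)) := ⟨_, rfl⟩
  obtain ⟨E, hE⟩ : ∃ E : ℝ, E = Cc * (((a : ℝ) * a) ^ 2 / k + 1 / √k) + 1 / 2 ^ a := ⟨_, rfl⟩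
  obtain ⟨f, hf⟩ : ∃ f : (((Fin (16 * i) → ZMod 2) × Word D m (Fin (16 * i) → ZMod 2)) →
    ZMod 2) → ZMod 2, f = out g x0 (a + 1) := ⟨_, rfl⟩
  obtain ⟨h8, h9, h10, -, h12, -⟩ := hgood g hg (Fin (16 * i) → ZMod 2) x0 hx0 a k N
    (Nat.card (ZMod 2) : ℝ) E f ha1 le_rfl hcardB.symm hCk hN rfl hE hf
  rw [← hT] at h8
  have hN2 : N = (2 ^ i) ^ (16 * T) := by
    rw [h8, hk, ← pow_mul, ← pow_mul]
    congr 1
    ring
  have hNc : (N : ℝ) ^ c = 2 ^ i := by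
    rw [hN2, hc]
    push_cast
    have h1 := Real.pow_rpow_inv_natCast (x := (2 : ℝ) ^ i) (by positivity)
      (show 16 * T ≠ 0 by omega)
    push_cast at h1
    exact h1
  have hNi : 2 ^ i ≤ N := by
    rw [hN2]
    exact Nat.le_self_pow (by omega) _
  have hN1 : 1 ≤ N := Nat.one_le_two_pow.trans hNi
  have hNpos : (0 : ℝ) < N := by exact_mod_cast hN1
  have hNc' : (N : ℝ) ^ (-c) = (2 ^ i)⁻¹ := by rw [Real.rpow_neg hNpos.le, hNc]
  have hN₀ : N₀ ≤ N := by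
    have : i < 2 ^ i := Nat.lt_two_pow_self
    omega
  have hqc : ((Nat.card (ZMod 2) : ℕ) : ℝ) = 2 := by
    rw [Nat.card_eq_fintype_card, ZMod.card]
    norm_num
  have h2i : (0 : ℝ) < 2 ^ i := by positivity
  -- the error
  have hEs : E ≤ (2 ^ i)⁻¹ := by
    have hka : ((a : ℝ) * a) ^ 2 / k = ((2 : ℝ) ^ (8 * i))⁻¹ := by
      have h1 : ((a : ℝ) * a) ^ 2 = 2 ^ (8 * i) := by exact_mod_cast haR
      have h2 : (k : ℝ) = 2 ^ (8 * i) * 2 ^ (8 * i) := by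
        rw [hk, ← pow_add]
        push_cast
        congr 1
        ring
      rw [h1, h2]
      field_simp
    have hsk : √(k : ℝ) = 2 ^ (8 * i) := by
      rw [show (k : ℝ) = (2 ^ (8 * i)) ^ 2 by
        rw [hk, ← pow_mul]
        push_cast
        congr 1
        ring]
      exact Real.sqrt_sq (by positivity)
    have h1 : (Cc : ℝ) ≤ 2 ^ i := by exact_mod_cast hCi
    have h3 : (2 : ℝ) ^ (8 * i) = 2 ^ i * (2 ^ i * 2 ^ (6 * i)) := by
      rw [← pow_add, ← pow_add]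
      congr 1
      ring
    have h4 : (4 : ℝ) ≤ 2 ^ (6 * i) := by
      calc (4 : ℝ) = 2 ^ 2 := by norm_num
        _ ≤ 2 ^ (6 * i) := pow_le_pow_right₀ (by norm_num) (by omega)
    have h5 : (Cc : ℝ) * (((2 : ℝ) ^ (8 * i))⁻¹ + 1 / 2 ^ (8 * i)) ≤ (2 ^ i)⁻¹ / 2 := by
      have h6 : (0 : ℝ) < 2 ^ (6 * i) := by positivity
      have h7 : (Cc : ℝ) * (((2 : ℝ) ^ (8 * i))⁻¹ + 1 / 2 ^ (8 * i)) ≤
          2 ^ i * (((2 : ℝ) ^ (8 * i))⁻¹ + 1 / 2 ^ (8 * i)) :=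
        mul_le_mul_of_nonneg_right h1 (by positivity)
      refine h7.trans ?_
      rw [h3, one_div, mul_inv, mul_inv]
      have h8 : (2 : ℝ) ^ i * ((2 ^ i)⁻¹ * ((2 ^ i)⁻¹ * (2 ^ (6 * i))⁻¹) +
          (2 ^ i)⁻¹ * ((2 ^ i)⁻¹ * (2 ^ (6 * i))⁻¹)) = (2 ^ i)⁻¹ * (2 * (2 ^ (6 * i))⁻¹) := by
        field_simp
        ring
      rw [h8, div_eq_mul_inv]
      refine mul_le_mul_of_nonneg_left ?_ (by positivity)
      have h9 : ((2 : ℝ) ^ (6 * i))⁻¹ ≤ 4⁻¹ := inv_anti₀ (by norm_num) h4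
      linarith
    have h6 : (1 : ℝ) / 2 ^ a ≤ (2 ^ i)⁻¹ / 2 := by
      have h7 : (2 : ℝ) ^ (i + 1) ≤ 2 ^ a := by
        refine pow_le_pow_right₀ (by norm_num) ?_
        rw [ha]
        have h8 : i < 2 ^ i := Nat.lt_two_pow_self
        have h9 : (2 : ℕ) ^ i ≤ 4 ^ i := Nat.pow_le_pow_left (by norm_num) i
        omega
      have h8 : (2 : ℝ) ^ i * 2 ≤ 2 ^ a := by rw [← pow_succ]; exact h7
      have h9 : ((2 : ℝ) ^ i)⁻¹ / 2 = (2 ^ i * 2)⁻¹ := by rw [mul_inv, div_eq_mul_inv]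
      rw [h9, one_div]
      exact inv_anti₀ (by positivity) h8
    rw [hE, hka, hsk]
    linarith
  have hfin : Finite ((Fin (16 * i) → ZMod 2) × Word D m (Fin (16 * i) → ZMod 2)) := inferInstance
  refine ⟨N, hN₀, hN1, _, hfin, f, hN.symm, fun y => ?_, fun S P hS hP => ?_, ?_⟩
  · refine le_trans ?_ (h9 y)
    refine mul_le_mul_of_nonneg_right ?_ (Nat.cast_nonneg _)
    rw [hqc, hNc']
    linarith
  · rw [hNc] at hS
    have hS2 : S ≤ 2 ^ (2 ^ i) := by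
      have h1 : (S : ℝ) ≤ (2 : ℝ) ^ ((2 : ℝ) ^ i) := hS
      have h2 : (2 : ℝ) ^ ((2 : ℝ) ^ i) = ((2 ^ (2 ^ i) : ℕ) : ℝ) := by
        push_cast
        rw [← Real.rpow_natCast 2 (2 ^ i)]
        push_cast
        rfl
      rw [h2] at h1
      exact_mod_cast h1
    have hSa : S ≤ 2 ^ a := hS2.trans (Nat.pow_le_pow_right (by norm_num) (by omega))
    obtain ⟨hNN, hKK⟩ := h10 S P hP
    rw [hNc']
    refine ⟨?_, ?_⟩
    · have hNexp : N = 2 ^ (16 * T * i) := by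
        rw [hN2, ← pow_mul]
        congr 1
        ring
      have hL : r * N + 1 ≤ 2 ^ (16 * T * i + r + 1) := by
        have h1 : r + 1 ≤ 2 ^ (r + 1) := Nat.lt_two_pow_self.le
        calc r * N + 1 ≤ (r + 1) * N := by nlinarith
          _ ≤ 2 ^ (r + 1) * N := Nat.mul_le_mul_right _ h1
          _ = 2 ^ (16 * T * i + r + 1) := by
              rw [hNexp, ← pow_add]
              congr 1
              ring
      have hexp : 2 ^ i + (16 * T * i + r + 1) ≤ a := by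
        rw [ha]
        refine le_trans ?_ hi2
        nlinarith
      refine (hKK (r * N) ?_ ?_ ?_).trans (mul_le_mul_of_nonneg_right hEs (Nat.cast_nonneg _))
      · rw [hqc]
        push_cast
        have h1 : (1 : ℝ) / 4 ≤ 1 - 1 / 2 - δ' := by linarith
        have h2 : (r : ℝ) ≤ (1 - 1 / 2 - δ') * (4 * r + 1) := by
          have h3 : (0 : ℝ) ≤ 4 * r + 1 := by positivity
          have := mul_le_mul_of_nonneg_right h1 h3
          linarith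
        exact mul_le_mul_of_nonneg_right h2 hNpos.le
      · have h1 : r * N ≤ r * N + 1 := by omega
        have h2 : 16 * T * i + r + 1 ≤ a := by omega
        have h3 : 2 ^ (16 * T * i + r + 1) ≤ 2 ^ a := Nat.pow_le_pow_right (by norm_num) h2
        exact le_trans h1 (le_trans hL h3)
      · calc S * (r * N + 1) ≤ 2 ^ (2 ^ i) * 2 ^ (16 * T * i + r + 1) := Nat.mul_le_mul hS2 hL
          _ = 2 ^ (2 ^ i + (16 * T * i + r + 1)) := by rw [← pow_add]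
          _ ≤ 2 ^ a := Nat.pow_le_pow_right (by norm_num) hexp
    · refine le_trans ?_ ((hNN hSa (Or.inl hSa)).trans
        (mul_le_mul_of_nonneg_right hEs (Nat.cast_nonneg _)))
      have h1 := card_mono (p := fun I : ((Fin (16 * i) → ZMod 2) ×
          Word D m (Fin (16 * i) → ZMod 2)) → ZMod 2 => (∃ l z, P.Ends I l z) ∧
          ∀ l z, P.Ends I l z → (1 / 2 + δ) * (N : ℝ) ≤ Nat.card {x // times l x ≤ r})
        (q := fun I => (∃ l z, P.Ends I l z) ∧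
          ∀ l z, P.Ends I l z → (1 / ((Nat.card (ZMod 2) : ℕ) : ℝ) + δ') * (N : ℝ) ≤
            Nat.card {x // times l x ≤ 4 * r}) (fun I hI => ⟨hI.1, fun l z hlz => ?_⟩)
      · exact_mod_cast h1
      · have h2 := hI.2 l z hlz
        have h3 : (Nat.card {x // times l x ≤ r} : ℝ) ≤ Nat.card {x // times l x ≤ 4 * r} := by
          have h4 := card_mono (p := fun x : ((Fin (16 * i) → ZMod 2) ×
              Word D m (Fin (16 * i) → ZMod 2)) => times l x ≤ r)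
            (q := fun x => times l x ≤ 4 * r) (fun x hx => by omega)
          exact_mod_cast h4
        refine le_trans ?_ (h2.trans h3)
        refine mul_le_mul_of_nonneg_right ?_ hNpos.le
        rw [hqc]
        linarith
  · obtain ⟨Q, Γ, hQ, hΓ, P, h13, h14, h15⟩ := h12
    refine ⟨Q, Γ, hQ, hΓ, P, h13, h14, fun I => ⟨(h15 I).1, (h15 I).2.trans ?_⟩⟩
    have hsk : √(k : ℝ) = 2 ^ (8 * i) := by
      rw [show (k : ℝ) = (2 ^ (8 * i)) ^ 2 by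
        rw [hk, ← pow_mul]
        push_cast
        congr 1
        ring]
      exact Real.sqrt_sq (by positivity)
    rw [hsk, sub_eq_add_neg, Real.rpow_add hNpos, Real.rpow_one, hNc', div_eq_mul_inv]
    refine mul_le_mul_of_nonneg_left ?_ hNpos.le
    exact inv_anti₀ h2i (pow_le_pow_right₀ (by norm_num) (by omega))

end Pool.Agent.Helper99.RTB
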